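import Pool.Agent.Run7.h991.MU.Iface

/-!
# Piece FINL: from `C_0(Q)` to `L²(Q)`
-/

open MeasureTheory Filter Topology

noncomputable section

namespace Run7.h55.MU

open H991.MU

/-- the cut-off function -/
def cut (k : ℕ) : C(Q, ℂ) :=
  ⟨fun q => ((min 1 ((k : ℝ) * (q.1 : ℝ)) * min 1 ((k : ℝ) * (q.2 : ℝ)) : ℝ) : ℂ), by fun_prop⟩

lemma cut_apply (k : ℕ) (q : Q) :
    cut k q = ((min 1 ((k : ℝ) * (q.1 : ℝ)) * min 1 ((k : ℝ) * (q.2 : ℝ)) : ℝ) : ℂ) := rfl

lemma cut_C0 (g : C(Q, ℂ)) (k : ℕ) : g * cut k ∈ C0 := by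
  intro q hq
  rw [ContinuousMap.mul_apply, cut_apply]
  rcases hq with h | h
  · rw [h]
    simp
  · rw [h]
    simp

lemma cut_norm (k : ℕ) (q : Q) : ‖cut k q‖ ≤ 1 := by
  rw [cut_apply, Complex.norm_real, Real.norm_eq_abs]
  have h1 : 0 ≤ (q.1 : ℝ) := q.1.2.1
  have h2 : 0 ≤ (q.2 : ℝ) := q.2.2.1
  have a1 : 0 ≤ min 1 ((k : ℝ) * (q.1 : ℝ)) := le_min zero_le_one (by positivity)
  have a2 : 0 ≤ min 1 ((k : ℝ) * (q.2 : ℝ)) := le_min zero_le_one (by positivity)
  rw [abs_of_nonneg (mul_nonneg a1 a2)]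
  exact mul_le_one₀ (min_le_left _ _) a2 (min_le_left _ _)

lemma cut_eventually (q : Q) (h1 : q.1 ≠ 0) (h2 : q.2 ≠ 0) : ∀ᶠ k : ℕ in atTop, cut k q = 1 := by
  have p1 : 0 < (q.1 : ℝ) := lt_of_le_of_ne q.1.2.1 (fun h => h1 (Subtype.ext h.symm))
  have p2 : 0 < (q.2 : ℝ) := lt_of_le_of_ne q.2.2.1 (fun h => h2 (Subtype.ext h.symm))
  have t1 : Tendsto (fun k : ℕ => (k : ℝ) * (q.1 : ℝ)) atTop atTop :=
    tendsto_natCast_atTop_atTop.atTop_mul_const p1
  have t2 : Tendsto (fun k : ℕ => (k : ℝ) * (q.2 : ℝ)) atTop atTop :=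
    tendsto_natCast_atTop_atTop.atTop_mul_const p2
  filter_upwards [t1.eventually_ge_atTop 1, t2.eventually_ge_atTop 1] with k hk1 hk2
  rw [cut_apply, min_eq_left hk1, min_eq_left hk2]
  simp

lemma null_zero : (volume : Measure unitInterval) {0} = 0 := by
  rw [unitInterval.volume_apply]
  simp

lemma ae_ne : ∀ᵐ q : Q, q.1 ≠ 0 ∧ q.2 ≠ 0 := by
  have h1 : (volume : Measure Q) (({0} : Set unitInterval) ×ˢ Set.univ) = 0 := by
    rw [Measure.volume_eq_prod, Measure.prod_prod, null_zero, zero_mul]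
  have h2 : (volume : Measure Q) (Set.univ ×ˢ ({0} : Set unitInterval)) = 0 := by
    rw [Measure.volume_eq_prod, Measure.prod_prod, null_zero, mul_zero]
  rw [ae_iff]
  refine measure_mono_null ?_ (measure_union_null h1 h2)
  intro q hq
  simp only [Set.mem_ofPred_eq, not_and_or, not_not] at hq
  rcases hq with h | h
  · left
    exact ⟨h, trivial⟩
  · right
    exact ⟨trivial, h⟩

lemma tendsto_toLp (g : C(Q, ℂ)) :
    Tendsto (fun k : ℕ => ContinuousMap.toLp (E := ℂ) 2 (volume : Measure Q) ℂ (g * cut k)) atTop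
      (𝓝 (ContinuousMap.toLp (E := ℂ) 2 volume ℂ g)) := by
  rw [MeasureTheory.Lp.tendsto_Lp_iff_tendsto_eLpNorm']
  have h0 : ∀ k : ℕ, eLpNorm (⇑(ContinuousMap.toLp (E := ℂ) 2 (volume : Measure Q) ℂ (g * cut k)) -
      ⇑(ContinuousMap.toLp (E := ℂ) 2 (volume : Measure Q) ℂ g)) 2 volume =
      (∫⁻ q : Q, ‖g q * cut k q - g q‖ₑ ^ (2 : ℝ)) ^ (1 / (2 : ℝ)) := by
    intro k
    have e1 : (⇑(ContinuousMap.toLp (E := ℂ) 2 (volume : Measure Q) ℂ (g * cut k)) -
        ⇑(ContinuousMap.toLp (E := ℂ) 2 (volume : Measure Q) ℂ g)) =ᵐ[volume]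
        fun q => g q * cut k q - g q := by
      filter_upwards [ContinuousMap.coeFn_toLp (p := 2) (𝕜 := ℂ) (volume : Measure Q) (g * cut k),
        ContinuousMap.coeFn_toLp (p := 2) (𝕜 := ℂ) (volume : Measure Q) g] with q h1 h2
      rw [Pi.sub_apply, h1, h2, ContinuousMap.mul_apply]
    rw [eLpNorm_congr_ae e1, eLpNorm_eq_lintegral_rpow_enorm_toReal (by norm_num) (by norm_num)]
    simp
  simp only [h0]
  have h1 : Tendsto (fun k : ℕ => ∫⁻ q : Q, ‖g q * cut k q - g q‖ₑ ^ (2 : ℝ)) atTop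
      (𝓝 (∫⁻ _ : Q, 0)) := by
    refine tendsto_lintegral_of_dominated_convergence
      (fun _ => (ENNReal.ofReal (2 * ‖g‖)) ^ (2 : ℝ)) ?_ ?_ ?_ ?_
    · intro k
      have hc : Continuous fun q : Q => g q * cut k q - g q := by fun_prop
      exact (hc.enorm.measurable).pow_const _
    · intro k
      refine Eventually.of_forall fun q => ?_
      refine ENNReal.rpow_le_rpow ?_ (by norm_num)
      rw [← ofReal_norm]
      refine ENNReal.ofReal_le_ofReal ?_
      have a1 := g.norm_coe_le_norm q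
      have a2 := cut_norm k q
      calc ‖g q * cut k q - g q‖ ≤ ‖g q * cut k q‖ + ‖g q‖ := norm_sub_le _ _
        _ ≤ ‖g‖ * 1 + ‖g‖ := by
          rw [norm_mul]
          exact add_le_add (mul_le_mul a1 a2 (norm_nonneg _) (norm_nonneg _)) a1
        _ = 2 * ‖g‖ := by ring
    · rw [lintegral_const]
      refine ENNReal.mul_ne_top ?_ (measure_ne_top _ _)
      exact ENNReal.rpow_ne_top_of_nonneg (by norm_num) ENNReal.ofReal_ne_top
    · filter_upwards [ae_ne] with q hq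
      refine tendsto_const_nhds.congr' ?_
      filter_upwards [cut_eventually q hq.1 hq.2] with k hk
      rw [hk, mul_one, sub_self, enorm_zero, ENNReal.zero_rpow_of_pos (by norm_num)]
  rw [lintegral_zero] at h1
  have h2 := h1.ennrpow_const (1 / (2 : ℝ))
  rwa [ENNReal.zero_rpow_of_pos (by norm_num)] at h2

theorem t_FINL (hF : S_FINC) : S_FINL := by
  intro Ω ε δ hε hε1 hδ hA hD
  set T := ContinuousMap.toLp (E := ℂ) 2 (volume : Measure Q) ℂ with hT
  set M : Submodule ℂ (Lp ℂ 2 (volume : Measure Q)) := Submodule.span ℂ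
    {g : Lp ℂ 2 (volume : Measure Q) | ∃ p ∈ Ω, g = T (mon p.1 p.2)} with hM
  set N : Submodule ℂ C(Q, ℂ) := Submodule.span ℂ {g : C(Q, ℂ) | ∃ p ∈ Ω, g = mon p.1 p.2} with hN
  have h1 : ∀ f ∈ N, T f ∈ M := by
    intro f hf
    have h2 : N ≤ M.comap T.toLinearMap := by
      rw [hN, Submodule.span_le]
      rintro g ⟨p, hp, rfl⟩
      exact Submodule.subset_span ⟨p, hp, rfl⟩
    exact h2 hf
  have h2 : ∀ f ∈ N.topologicalClosure, T f ∈ M.topologicalClosure := by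
    intro f hf
    have h3 : (T : C(Q, ℂ) → Lp ℂ 2 (volume : Measure Q)) '' closure (N : Set C(Q, ℂ)) ⊆
        closure ((T : C(Q, ℂ) → Lp ℂ 2 (volume : Measure Q)) '' (N : Set C(Q, ℂ))) :=
      image_closure_subset_closure_image T.continuous
    have h4 : T f ∈ closure ((T : C(Q, ℂ) → Lp ℂ 2 (volume : Measure Q)) '' (N : Set C(Q, ℂ))) :=
      h3 ⟨f, hf, rfl⟩
    refine closure_mono ?_ h4
    rintro _ ⟨g, hg, rfl⟩
    exact h1 g hg
  have h3 : ∀ g : C(Q, ℂ), T g ∈ M.topologicalClosure := by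
    intro g
    have hc : IsClosed (M.topologicalClosure : Set (Lp ℂ 2 (volume : Measure Q))) :=
      M.isClosed_topologicalClosure
    refine hc.mem_of_tendsto (tendsto_toLp g) (Eventually.of_forall fun k => ?_)
    exact h2 _ (hF Ω ε δ hε hε1 hδ hA hD _ (cut_C0 g k))
  have h4 : DenseRange (T : C(Q, ℂ) → Lp ℂ 2 (volume : Measure Q)) :=
    ContinuousMap.toLp_denseRange ℂ (volume : Measure Q) ℂ (by norm_num)
  rw [eq_top_iff]
  intro f _
  have hc : IsClosed (M.topologicalClosure : Set (Lp ℂ 2 (volume : Measure Q))) :=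
    M.isClosed_topologicalClosure
  have h5 : closure (Set.range (T : C(Q, ℂ) → Lp ℂ 2 (volume : Measure Q))) ⊆
      (M.topologicalClosure : Set (Lp ℂ 2 (volume : Measure Q))) := by
    refine hc.closure_subset_iff.2 ?_
    rintro _ ⟨g, rfl⟩
    exact h3 g
  exact h5 (h4 f)

end Run7.h55.MU
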